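import Pool.Agent.W477.GM.Stms

/-!
# GM-ORB: orbits of names are small
-/

set_option maxHeartbeats 1000000

namespace Pool.Agent.W477.GM.W554

open Pool.Agent.W477.GM

theorem orb_holds (h1 : P_ACT) (h2 : P_HS) : P_ORB := by
  intro P _ _ S hS x hx
  have hs := h2 P S hS
  have ac := h1 P
  obtain ⟨a, ha⟩ := hs.liv x hx
  have hsm : Small.{0} {p : P // S.rho a p = p} := hS.small a
  let f : {g : P ≃o P // g ∈ S.G} → {p : P // S.rho a p = p} → {p : P // S.rho a p = p} :=
    fun g p => ⟨g.1 p.1, by rw [hS.rho_act g.1 g.2, p.2]⟩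
  have key : ∀ g g' : {g : P ≃o P // g ∈ S.G}, f g = f g' → act g.1 x = act g'.1 x := by
    intro g g' h
    have hu : ∀ u, S.rho a u = u → (g.1⁻¹ * g'.1) u = u := by
      intro u hu
      have h3 : (f g ⟨u, hu⟩).1 = (f g' ⟨u, hu⟩).1 := by rw [h]
      change g.1 u = g'.1 u at h3
      change g.1.symm (g'.1 u) = u
      rw [← h3]
      exact g.1.symm_apply_apply u
    have h4 := hs.fix a (g.1⁻¹ * g'.1) hu x ha
    have h5 := ac.mul g.1 (g.1⁻¹ * g'.1) x
    rw [h4, mul_inv_cancel_left] at h5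
    exact h5.symm
  let Y : Set (Nm P) := {y | ∃ g : {g : P ≃o P // g ∈ S.G}, y = act g.1 x}
  have hch : ∀ y : Y, ∃ g : {g : P ≃o P // g ∈ S.G}, y.1 = act g.1 x := fun y => y.2
  choose G hG using hch
  have hY : Small.{0} Y := by
    refine small_of_injective (f := fun y : Y => f (G y)) fun y y' h => ?_
    apply Subtype.ext
    rw [hG y, hG y']
    exact key _ _ h
  refine ⟨Shrink.{0} Y, fun k => ((equivShrink Y).symm k).1, fun k => ?_, fun g hg => ?_⟩
  · exact ⟨(G ((equivShrink Y).symm k)).1, (G ((equivShrink Y).symm k)).2, hG _⟩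
  · exact ⟨equivShrink Y ⟨act g x, ⟨g, hg⟩, rfl⟩, by
      change act g x = ((equivShrink Y).symm (equivShrink Y ⟨act g x, ⟨g, hg⟩, rfl⟩)).1
      rw [Equiv.symm_apply_apply]⟩

end Pool.Agent.W477.GM.W554
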